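import Pool.Agent.Helper40.AC.Stmts

/-! # AC: the root function and the unit vectors (packet P30) -/

set_option autoImplicit false

open scoped ContDiff

namespace Pool.Agent.Helper85.AC

open Pool.Agent.Helper40.AC

/-- the cubic -/
def cub (t : ℝ) : ℝ := t ^ 3 + 4 * t

theorem cub_mono : StrictMono cub := by
  intro a b hab
  unfold cub
  nlinarith [sq_nonneg (a + b), sq_nonneg a, sq_nonneg b, sq_nonneg (a - b),
    mul_pos (sub_pos.2 hab) (by positivity : 0 < a ^ 2 + b ^ 2 + (a + b) ^ 2 + 1)]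

theorem cub_surj : Function.Surjective cub := fun y => exists_root y

/-- the cubic as a homeomorphism -/
noncomputable def cubH : ℝ ≃ₜ ℝ := (cub_mono.orderIsoOfSurjective cub cub_surj).toHomeomorph

theorem cubH_apply (t : ℝ) : cubH t = t ^ 3 + 4 * t := rfl

theorem root_eq (y : ℝ) : cubH.symm y = rootF y := by
  rw [Homeomorph.symm_apply_eq, cubH_apply]
  exact (rootF_spec y).symm

theorem root_smooth : ContDiff ℝ ∞ rootF := by
  have h : ContDiff ℝ ∞ (cubH.symm : ℝ → ℝ) := by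
    refine Homeomorph.contDiff_symm_deriv (f := cubH) (f' := fun t => 3 * t ^ 2 + 4)
      (fun t => by positivity) (fun t => ?_) ?_
    · have h1 : HasDerivAt (fun t : ℝ => t ^ 3 + 4 * t) (3 * t ^ 2 + 4) t := by
        have h2 := (hasDerivAt_pow 3 t).fun_add ((hasDerivAt_id' t).const_mul 4)
        simpa using h2
      exact h1
    · have h1 : ContDiff ℝ ∞ (fun t : ℝ => t ^ 3 + 4 * t) := by fun_prop
      exact h1
  have h2 : (cubH.symm : ℝ → ℝ) = rootF := funext root_eq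
  rwa [h2] at h

theorem Nn_pos (c₁ s₁ c₂ s₂ t : ℝ) : 0 < Nn c₁ s₁ c₂ s₂ t := by
  have h : 0 < t ^ 2 + (1 - c₂) ^ 2 + kR c₁ s₁ c₂ s₂ t ^ 2 := by
    unfold kR
    have h1 := sq_nonneg t
    have h2 := sq_nonneg (1 - c₂)
    generalize t ^ 2 = a at *
    generalize (1 - c₂) ^ 2 = b at *
    rcases lt_or_ge b 1 with h3 | h3
    · have : 0 < (a - b + 4) ^ 2 := by
        have : 0 < a - b + 4 := by linarith
        positivity
      linarith
    · have := sq_nonneg (a - b + 4)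
      linarith
  unfold Nn
  have h1 := sq_nonneg (fR c₁ s₁ c₂ s₂)
  have h2 := sq_nonneg (fI c₁ s₁ c₂ s₂)
  have h3 := sq_nonneg (kI c₁ s₁ c₂ s₂ t)
  have h4 := sq_nonneg (hR c₁ s₁ c₂ s₂)
  have h5 := sq_nonneg (hI c₁ s₁ c₂ s₂)
  linarith

theorem unit_id (c₁ s₁ c₂ s₂ t : ℝ) (h1 : c₁ ^ 2 + s₁ ^ 2 = 1) (h2 : c₂ ^ 2 + s₂ ^ 2 = 1)
    (h3 : t ^ 3 + 4 * t = gg c₁ s₁ c₂ s₂) :
    ∑ i, bv c₁ s₁ c₂ s₂ t i ^ 2 = Nn c₁ s₁ c₂ s₂ t ^ 2 := by
  have hR0 : (fR c₁ s₁ c₂ s₂ * hR c₁ s₁ c₂ s₂ - fI c₁ s₁ c₂ s₂ * hI c₁ s₁ c₂ s₂) +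
      (kR c₁ s₁ c₂ s₂ t * t + kI c₁ s₁ c₂ s₂ t * (1 - c₂)) = 0 := by
    unfold fR hR fI hI kR kI
    unfold gg at h3
    linear_combination h3 - s₂ * (3 - c₂) * s₁ / 2 * h2
  have hI0 : (fR c₁ s₁ c₂ s₂ * hI c₁ s₁ c₂ s₂ + fI c₁ s₁ c₂ s₂ * hR c₁ s₁ c₂ s₂) +
      (kI c₁ s₁ c₂ s₂ t * t - kR c₁ s₁ c₂ s₂ t * (1 - c₂)) = 0 := by
    unfold fR hR fI hI kR kI
    linear_combination s₂ * (3 - c₂) / 4 * (1 + s₂) ^ 2 * h1 + (3 - c₂) * h2
  rw [Fin.sum_univ_three]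
  simp only [bv, Matrix.cons_val_zero, Matrix.cons_val_one, Matrix.cons_val]
  unfold Nn
  generalize fR c₁ s₁ c₂ s₂ = a at *
  generalize fI c₁ s₁ c₂ s₂ = b at *
  generalize hR c₁ s₁ c₂ s₂ = c at *
  generalize hI c₁ s₁ c₂ s₂ = d at *
  generalize kR c₁ s₁ c₂ s₂ t = e at *
  generalize kI c₁ s₁ c₂ s₂ t = f at *
  generalize 1 - c₂ = r at *
  linear_combination
    (-4) * ((a * c - b * d) + (e * t + f * r)) * hR0 +
    (-4) * ((a * d + b * c) + (f * t - e * r)) * hI0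

theorem root_ok : S_ROOT :=
  ⟨root_smooth, fun y _ h => cub_mono.injective (h.trans (rootF_spec y).symm), Nn_pos, unit_id⟩

end Pool.Agent.Helper85.AC
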